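import Mathlib

/-!
# The functions `G r x = log x * loglog x * ... * (log_r x)^2`
-/

namespace Pool.Agent.H13.Delta

open Filter

/-- `G 0 x = x` and `G (r + 1) x = log x * G r (log x)`. -/
noncomputable def G : ℕ → ℝ → ℝ
  | 0, x => x
  | r + 1, x => Real.log x * G r (Real.log x)

theorem one_le_G (r : ℕ) : ∀ᶠ x : ℝ in atTop, 1 ≤ G r x := by
  induction r with
  | zero => exact eventually_ge_atTop 1
  | succ r ih =>
    filter_upwards [Real.tendsto_log_atTop.eventually ih,
      Real.tendsto_log_atTop.eventually (eventually_ge_atTop (1 : ℝ))] with x h1 h2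
    rw [G]
    nlinarith

theorem G_le_self (r : ℕ) : ∀ᶠ x : ℝ in atTop, G r x ≤ x := by
  induction r with
  | zero => exact Eventually.of_forall fun x => le_rfl
  | succ r ih =>
    have h3 : ∀ᶠ x : ℝ in atTop, Real.log x ^ 2 ≤ x := by
      have := (isLittleO_log_rpow_atTop (show (0 : ℝ) < 1 / 2 by norm_num)).bound
        (show (0 : ℝ) < 1 by norm_num)
      filter_upwards [this, eventually_ge_atTop 1] with x hx h1
      rw [Real.norm_of_nonneg (Real.log_nonneg h1), Real.norm_of_nonneg (by positivity),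
        one_mul, ← Real.sqrt_eq_rpow] at hx
      have h0 := Real.log_nonneg h1
      calc Real.log x ^ 2 ≤ √x ^ 2 := by gcongr
        _ = x := Real.sq_sqrt (by linarith)
    filter_upwards [Real.tendsto_log_atTop.eventually ih,
      Real.tendsto_log_atTop.eventually (eventually_ge_atTop (1 : ℝ)), h3] with x h1 h2 h3
    rw [G]
    nlinarith

/-- For `r ≥ 1`, `G r x ≤ (log x)^2`. -/
theorem G_succ_le (r : ℕ) : ∀ᶠ x : ℝ in atTop, G (r + 1) x ≤ Real.log x ^ 2 := by
  filter_upwards [Real.tendsto_log_atTop.eventually (G_le_self r),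
    Real.tendsto_log_atTop.eventually (eventually_ge_atTop (1 : ℝ))] with x h1 h2
  rw [G]
  nlinarith

theorem G_comp (r : ℕ) : ∀ B : ℝ, 1 ≤ B → ∃ C : ℝ, 1 ≤ C ∧ ∃ x₀ : ℝ, ∀ x y : ℝ, x₀ ≤ x → x₀ ≤ y →
    y ≤ B * x → G r y ≤ C * G r x := by
  induction r with
  | zero =>
    intro B hB
    exact ⟨B, hB, 0, fun x y _ _ h => h⟩
  | succ r ih =>
    intro B hB
    obtain ⟨C, hC, x₀, hx₀⟩ := ih 2 (by norm_num)
    obtain ⟨x₁, hx₁⟩ := (eventually_atTop.mp (one_le_G r))
    refine ⟨2 * C, by linarith, max (Real.exp (max (max x₀ x₁) 1)) B, ?_⟩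
    intro x y hx hy hyx
    rw [G, G]
    have hxe : Real.exp (max (max x₀ x₁) 1) ≤ x := (le_max_left _ _).trans hx
    have hye : Real.exp (max (max x₀ x₁) 1) ≤ y := (le_max_left _ _).trans hy
    have hxB : B ≤ x := (le_max_right _ _).trans hx
    have hx0 : 0 < x := (Real.exp_pos _).trans_le hxe
    have hy0 : 0 < y := (Real.exp_pos _).trans_le hye
    have hlx : max (max x₀ x₁) 1 ≤ Real.log x := (Real.le_log_iff_exp_le hx0).mpr hxe
    have hly : max (max x₀ x₁) 1 ≤ Real.log y := (Real.le_log_iff_exp_le hy0).mpr hye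
    have hly2 : Real.log y ≤ 2 * Real.log x := by
      have h1 : Real.log y ≤ Real.log (B * x) := Real.log_le_log hy0 hyx
      rw [Real.log_mul (by positivity) (by positivity)] at h1
      have h2 : Real.log B ≤ Real.log x := Real.log_le_log (by linarith) hxB
      linarith
    have h1x : 1 ≤ Real.log x := (le_max_right _ _).trans hlx
    have h1y : 1 ≤ Real.log y := (le_max_right _ _).trans hly
    have h0x : x₀ ≤ Real.log x := ((le_max_left _ _).trans (le_max_left _ _)).trans hlx
    have h0y : x₀ ≤ Real.log y := ((le_max_left _ _).trans (le_max_left _ _)).trans hly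
    have hGx : 1 ≤ G r (Real.log x) :=
      hx₁ _ (((le_max_right _ _).trans (le_max_left _ _)).trans hlx)
    have key := hx₀ (Real.log x) (Real.log y) h0x h0y hly2
    have hpos : 0 ≤ C * G r (Real.log x) := by positivity
    calc Real.log y * G r (Real.log y) ≤ Real.log y * (C * G r (Real.log x)) := by
          apply mul_le_mul_of_nonneg_left key (by linarith)
      _ ≤ (2 * Real.log x) * (C * G r (Real.log x)) := by
          apply mul_le_mul_of_nonneg_right hly2 hpos
      _ = 2 * C * (Real.log x * G r (Real.log x)) := by ring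

end Pool.Agent.H13.Delta
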