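import Mathlib

/-!
# Blocks of primes
-/

namespace Pool.Agent.H13.Delta

open Finset Filter Chebyshev

/-- The primes in `(y/4, y]`. -/
def block (y : ℕ) : Finset ℕ := (Finset.Ioc (y / 4) y).filter Nat.Prime

theorem sum_log_block (y : ℕ) : ∑ q ∈ block y, Real.log q = θ y - θ ((y / 4 : ℕ) : ℝ) := by
  rw [theta_eq_sum_Icc, theta_eq_sum_Icc]
  simp only [Nat.floor_natCast]
  have h : (Finset.Icc 0 y).filter Nat.Prime =
      (Finset.Icc 0 (y / 4)).filter Nat.Prime ∪ block y := by
    rw [block, ← filter_union]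
    congr 1
    ext x
    simp only [mem_Icc, mem_union, mem_Ioc]
    omega
  rw [h, sum_union]
  · ring
  · rw [block]
    refine disjoint_filter_filter ?_
    rw [disjoint_left]
    intro x hx hy
    rw [mem_Icc] at hx
    rw [mem_Ioc] at hy
    omega

theorem exp_le_prod_block : ∀ᶠ y : ℕ in atTop, Real.exp (y / 4) ≤ ∏ q ∈ block y, (q : ℝ) := by
  have h1 : ∀ᶠ x : ℝ in atTop, Real.log x ≤ (1 / 100) * x ^ (1 / 2 : ℝ) := by
    have := (isLittleO_log_rpow_atTop (show (0 : ℝ) < 1 / 2 by norm_num)).bound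
      (show (0 : ℝ) < 1 / 100 by norm_num)
    filter_upwards [this, eventually_ge_atTop 1] with x hx h1
    rw [Real.norm_of_nonneg (Real.log_nonneg h1),
      Real.norm_of_nonneg (by positivity)] at hx
    exact hx
  have h2 := tendsto_natCast_atTop_atTop (R := ℝ) |>.eventually h1
  have h3 := (tendsto_natCast_atTop_atTop (R := ℝ)).comp (tendsto_add_atTop_nat 1) |>.eventually h1
  filter_upwards [h2, h3, eventually_ge_atTop 1] with y hy hy1 h1y
  have hprod : 0 < ∏ q ∈ block y, (q : ℝ) := by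
    refine prod_pos fun q hq => ?_
    have := (mem_filter.mp hq).2.pos
    exact_mod_cast this
  rw [← Real.le_log_iff_exp_le hprod, Real.log_prod]
  · rw [sum_log_block]
    have hy0 : (0 : ℝ) ≤ y := by positivity
    have hy1' : (1 : ℝ) ≤ y := by exact_mod_cast h1y
    have e1 := theta_ge y
    have e2 := theta_le_log4_mul_x (x := ((y / 4 : ℕ) : ℝ)) (by positivity)
    have e3 : ((y / 4 : ℕ) : ℝ) ≤ y / 4 := Nat.cast_div_le
    have e4 : Real.log 4 = 2 * Real.log 2 := by
      rw [show (4 : ℝ) = 2 ^ 2 by norm_num, Real.log_pow]; norm_num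
    have e5 := Real.log_two_gt_d9
    have e6 : (y : ℝ) ^ (1 / 2 : ℝ) = √y := (Real.sqrt_eq_rpow y).symm
    have e7 : ((y : ℝ) + 1) ^ (1 / 2 : ℝ) = √((y : ℝ) + 1) := (Real.sqrt_eq_rpow _).symm
    have e8 : √(y : ℝ) * √y = y := Real.mul_self_sqrt hy0
    have hs : √(y : ℝ) ≤ y := by
      rw [Real.sqrt_le_left hy0]; nlinarith
    have hs1 : √((y : ℝ) + 1) ≤ y + 1 := by
      rw [Real.sqrt_le_left (by positivity)]; nlinarith
    simp only [Function.comp_apply, Nat.cast_add, Nat.cast_one] at hy1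
    rw [e6] at hy
    rw [e7] at hy1
    have hs0 : 0 ≤ √(y : ℝ) := Real.sqrt_nonneg _
    have e9 : 2 * √(y : ℝ) * Real.log y ≤ (2 / 100) * y := by nlinarith
    have e10 : Real.log ((y : ℝ) + 1) ≤ (2 / 100) * y := by nlinarith
    have e11 : Real.log 4 * ((y / 4 : ℕ) : ℝ) ≤ Real.log 4 * (y / 4) := by
      apply mul_le_mul_of_nonneg_left e3
      exact Real.log_nonneg (by norm_num)
    nlinarith
  · intro q hq
    have := (mem_filter.mp hq).2.ne_zero
    exact_mod_cast this

theorem sum_inv_block : ∀ᶠ y : ℕ in atTop, ∑ q ∈ block y, (1 : ℝ) / q ≤ 1 := by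
  have h1 : ∀ᶠ x : ℝ in atTop, 6 ≤ Real.log (x / 4) := by
    have : Tendsto (fun x : ℝ => Real.log (x / 4)) atTop atTop :=
      Real.tendsto_log_atTop.comp (tendsto_id.atTop_div_const (by norm_num))
    exact this.eventually_ge_atTop 6
  filter_upwards [tendsto_natCast_atTop_atTop (R := ℝ) |>.eventually h1,
    eventually_ge_atTop 1] with y hy h1y
  have hy0 : (0 : ℝ) < y := by exact_mod_cast h1y
  have hterm : ∀ q ∈ block y, (1 : ℝ) / q ≤ (4 / (6 * y)) * Real.log q := by
    intro q hq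
    obtain ⟨hq1, hq2⟩ := mem_filter.mp hq
    rw [mem_Ioc] at hq1
    have hlt : (y : ℝ) / 4 < q := by
      have h2 : y < 4 * q := by omega
      have h3 : (y : ℝ) < 4 * q := by exact_mod_cast h2
      linarith
    have h3 : 6 ≤ Real.log q := hy.trans (Real.log_le_log (by positivity) hlt.le)
    have hq0 : (0 : ℝ) < q := by linarith
    rw [div_mul_eq_mul_div, div_le_div_iff₀ hq0 (by positivity)]
    nlinarith
  calc ∑ q ∈ block y, (1 : ℝ) / q ≤ ∑ q ∈ block y, (4 / (6 * y)) * Real.log q :=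
        sum_le_sum hterm
    _ = (4 / (6 * y)) * (θ y - θ ((y / 4 : ℕ) : ℝ)) := by rw [← mul_sum, sum_log_block]
    _ ≤ (4 / (6 * y)) * (Real.log 4 * y) := by
        apply mul_le_mul_of_nonneg_left _ (by positivity)
        have e1 := theta_le_log4_mul_x (x := (y : ℝ)) hy0.le
        have e2 := theta_nonneg ((y / 4 : ℕ) : ℝ)
        linarith
    _ ≤ 1 := by
        have e4 : Real.log 4 = 2 * Real.log 2 := by
          rw [show (4 : ℝ) = 2 ^ 2 by norm_num, Real.log_pow]; norm_num
        have e5 := Real.log_two_lt_d9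
        rw [e4]
        have : 4 / (6 * (y : ℝ)) * (2 * Real.log 2 * y) = (4 / 3) * Real.log 2 := by
          field_simp
          ring
        rw [this]
        linarith

theorem card_block_le (y : ℕ) : (block y).card ≤ y := by
  refine (card_filter_le _ _).trans ?_
  rw [Nat.card_Ioc]
  omega

end Pool.Agent.H13.Delta
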