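import Pool.Agent.H13.Delta.Step
import Pool.Agent.H13.Delta.Primes
import Pool.Agent.H13.Delta.Growth

/-!
# Iteration of the step
-/

namespace Pool.Agent.H13.Delta

open Finset Filter

/-- The data produced at a given level. -/
structure Data (K : Finset ℕ) (L a : ℕ) (bound ε top x : ℝ) : Prop where
  good : Good K L a
  two_le : ∀ k ∈ K, 2 ≤ k
  le_bound : ∀ k ∈ K, (k : ℝ) ≤ bound
  prime_le : ∀ k ∈ K, ∀ q : ℕ, q.Prime → q ∣ k → (q : ℝ) ≤ top
  le_L : x ≤ L
  a_le : (a : ℝ) ≤ ε * L

/-- One step with a block of primes. -/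
theorem data_step {K : Finset ℕ} {L a : ℕ} {bound ε top x : ℝ} (y : ℕ)
    (h : Data K L a bound ε top x) (hx : 0 < x)
    (hε : ε ≤ 1 / 2) (hprod : Real.exp (y / 4) ≤ ∏ q ∈ block y, (q : ℝ))
    (hsum : ∑ q ∈ block y, (1 : ℝ) / q ≤ 1) (hy1 : 1 ≤ y)
    (hyL : (y : ℝ) ≤ x / 2) (htop : top ≤ y / 4) :
    ∃ K' L' a', Data K' L' a' (y * bound) (2 * ε + y / x) y (Real.exp (y / 4)) := by
  have hL0 : 0 < L := by
    have : (0 : ℝ) < L := hx.trans_le h.le_L
    exact_mod_cast this
  have hLr : (0 : ℝ) < L := by exact_mod_cast hL0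
  have hy1r : (1 : ℝ) ≤ y := by exact_mod_cast hy1
  have hprime : ∀ q ∈ block y, q.Prime := fun q hq => (mem_filter.mp hq).2
  have hqy : ∀ q ∈ block y, q ≤ y := fun q hq => (mem_Ioc.mp (mem_filter.mp hq).1).2
  have hcop : ∀ q ∈ block y, ∀ k ∈ K, ¬ q ∣ k := by
    intro q hq k hk hdvd
    have h1 := h.prime_le k hk q (hprime q hq) hdvd
    have h2 : y / 4 < q := (mem_Ioc.mp (mem_filter.mp hq).1).1
    have h3 : (y : ℝ) / 4 < q := by
      have h4 : y < 4 * q := by omega
      have h5 : (y : ℝ) < 4 * q := by exact_mod_cast h4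
      linarith
    linarith
  have hqL : ∀ q ∈ block y, a + q ≤ L := by
    intro q hq
    have h1 : (q : ℝ) ≤ y := by exact_mod_cast hqy q hq
    have h2 := h.a_le
    have h3 := h.le_L
    have h4 : ((a + q : ℕ) : ℝ) ≤ L := by
      push_cast
      nlinarith
    exact_mod_cast h4
  refine ⟨ext K (block y), L * ∏ q ∈ block y, q, _, ⟨good_step h.good hL0 (block y) hprime hqL hcop,
    ?_, ?_, ?_, ?_, ?_⟩⟩
  · intro k hk
    rw [ext, mem_union, mem_biUnion] at hk
    rcases hk with hk | ⟨q, hq, hk⟩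
    · exact h.two_le k hk
    · obtain ⟨k', hk', rfl⟩ := mem_image.mp hk
      have h1 := h.two_le k' hk'
      have h2 := (hprime q hq).pos
      nlinarith
  · intro k hk
    rw [ext, mem_union, mem_biUnion] at hk
    rcases hk with hk | ⟨q, hq, hk⟩
    · have := h.le_bound k hk
      nlinarith
    · obtain ⟨k', hk', rfl⟩ := mem_image.mp hk
      have h1 := h.le_bound k' hk'
      have h2 : (q : ℝ) ≤ y := by exact_mod_cast hqy q hq
      push_cast
      exact mul_le_mul h2 h1 (by positivity) (by positivity)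
  · intro k hk p hp hpk
    rw [ext, mem_union, mem_biUnion] at hk
    rcases hk with hk | ⟨q, hq, hk⟩
    · have := h.prime_le k hk p hp hpk
      linarith
    · obtain ⟨k', hk', rfl⟩ := mem_image.mp hk
      rcases (Nat.Prime.dvd_mul hp).mp hpk with h1 | h1
      · have h2 : p ≤ y := (Nat.le_of_dvd (hprime q hq).pos h1).trans (hqy q hq)
        exact_mod_cast h2
      · have := h.prime_le k' hk' p hp h1
        linarith
  · push_cast
    have h1 : (1 : ℝ) ≤ L := by exact_mod_cast hL0
    have h2 := Real.exp_pos ((y : ℝ) / 4)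
    nlinarith
  · push_cast
    set P := ∏ q ∈ block y, (q : ℝ) with hP
    have hPpos : 0 < P := (Real.exp_pos _).trans_le hprod
    have hM : ∀ q ∈ block y, ∏ p ∈ (block y).erase q, (p : ℝ) = P / q := by
      intro q hq
      have hq0 : (q : ℝ) ≠ 0 := by exact_mod_cast (hprime q hq).ne_zero
      rw [eq_div_iff hq0, mul_comm]
      exact mul_prod_erase (block y) (fun p : ℕ => (p : ℝ)) hq
    have h1 : ∑ q ∈ block y, ((a : ℝ) + q) * ∏ p ∈ (block y).erase q, (p : ℝ) =
        P * (a * (∑ q ∈ block y, (1 : ℝ) / q) + (block y).card) := by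
      rw [mul_add, ← mul_assoc, mul_sum, mul_comm P ((block y).card : ℝ), ← nsmul_eq_mul,
        ← sum_const, ← sum_add_distrib]
      refine sum_congr rfl fun q hq => ?_
      have hq0 : (q : ℝ) ≠ 0 := by exact_mod_cast (hprime q hq).ne_zero
      rw [hM q hq]
      field_simp
    rw [h1]
    have hcard : ((block y).card : ℝ) ≤ y := by exact_mod_cast card_block_le y
    have ha := h.a_le
    have ha0 : (0 : ℝ) ≤ a := by positivity
    have hs0 : 0 ≤ ∑ q ∈ block y, (1 : ℝ) / q := sum_nonneg fun q _ => by positivity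
    have h2 : (a : ℝ) * (∑ q ∈ block y, (1 : ℝ) / q) ≤ a := by nlinarith
    have h3 : (y : ℝ) ≤ y / x * L := by
      rw [div_mul_eq_mul_div, le_div_iff₀ hx]
      exact mul_le_mul_of_nonneg_left h.le_L (by positivity)
    calc (a : ℝ) * P + P * (a * (∑ q ∈ block y, (1 : ℝ) / q) + (block y).card)
        ≤ a * P + P * (a + y) := by
          have : a * (∑ q ∈ block y, (1 : ℝ) / q) + (block y).card ≤ (a : ℝ) + y := by linarith
          have := mul_le_mul_of_nonneg_left this hPpos.le
          linarith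
      _ = P * (2 * a + y) := by ring
      _ ≤ P * (2 * (ε * L) + y / x * L) := by
          apply mul_le_mul_of_nonneg_left _ hPpos.le
          linarith
      _ = (2 * ε + y / x) * (L * P) := by ring

/-- The statement proved by induction on the level. -/
def Level (r : ℕ) : Prop :=
  ∀ ε : ℝ, 0 < ε → ∃ C : ℝ, 1 ≤ C ∧ ∀ᶠ x : ℝ in atTop, ∃ K L a,
    Data K L a (C * G r x) ε (C * Real.log x) x

theorem level_zero : Level 0 := by
  intro ε hε
  refine ⟨2, by norm_num, ?_⟩
  filter_upwards [eventually_ge_atTop (1 : ℝ),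
    Real.tendsto_log_atTop.eventually (eventually_ge_atTop (1 : ℝ))] with x hx hlx
  obtain ⟨n, hn1, hn2⟩ := exists_nat_pow_near hx (by norm_num : (1 : ℝ) < 2)
  refine ⟨_, _, 0, ⟨good_two (n + 1), ?_, ?_, ?_, ?_, ?_⟩⟩
  · intro k hk
    obtain ⟨a, ha, rfl⟩ := mem_image.mp hk
    rw [mem_Icc] at ha
    calc 2 = 2 ^ 1 := by norm_num
      _ ≤ 2 ^ a := Nat.pow_le_pow_right (by norm_num) ha.1
  · intro k hk
    obtain ⟨a, ha, rfl⟩ := mem_image.mp hk
    rw [mem_Icc] at ha
    rw [G]
    push_cast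
    calc (2 : ℝ) ^ a ≤ 2 ^ (n + 1) := pow_le_pow_right₀ (by norm_num) ha.2
      _ = 2 * 2 ^ n := by rw [pow_succ]; ring
      _ ≤ 2 * x := by linarith
  · intro k hk q hq hqk
    obtain ⟨a, ha, rfl⟩ := mem_image.mp hk
    have h1 : q = 2 := (Nat.prime_dvd_prime_iff_eq hq Nat.prime_two).mp (hq.dvd_of_dvd_pow hqk)
    subst h1
    push_cast
    linarith
  · push_cast
    exact hn2.le
  · simp only [Nat.cast_zero]
    positivity

theorem level_succ (r : ℕ) (ih : Level r) : Level (r + 1) := by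
  intro ε hε
  set δ : ℝ := min (ε / 2) (1 / 2) with hδ
  have hδ0 : 0 < δ := lt_min (by linarith) (by norm_num)
  have hδε : δ ≤ ε / 2 := min_le_left _ _
  have hδ2 : δ ≤ 1 / 2 := min_le_right _ _
  obtain ⟨C, hC, hC'⟩ := ih (δ / 2) (by linarith)
  obtain ⟨B, hB1, x₀, hB⟩ := G_comp r (5 / δ) (by
    rw [le_div_iff₀ hδ0]; linarith)
  -- `y = ⌈4 log x⌉`, `X = y / δ`
  have hlog := Real.tendsto_log_atTop
  have hy : Tendsto (fun x : ℝ => ⌈4 * Real.log x⌉₊) atTop atTop :=
    tendsto_nat_ceil_atTop.comp (hlog.const_mul_atTop (by norm_num))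
  have hyr : Tendsto (fun x : ℝ => (⌈4 * Real.log x⌉₊ : ℝ)) atTop atTop :=
    tendsto_natCast_atTop_atTop.comp hy
  have hX : Tendsto (fun x : ℝ => (⌈4 * Real.log x⌉₊ : ℝ) / δ) atTop atTop :=
    hyr.atTop_div_const hδ0
  have hsmall : ∀ᶠ X : ℝ in atTop, C * Real.log X ≤ δ / 4 * X := by
    have := Real.isLittleO_log_id_atTop.bound (show (0 : ℝ) < δ / (4 * C) by positivity)
    filter_upwards [this, eventually_ge_atTop 1] with X hX h1
    rw [Real.norm_of_nonneg (Real.log_nonneg h1), id, Real.norm_of_nonneg (by linarith)] at hX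
    calc C * Real.log X ≤ C * (δ / (4 * C) * X) := by gcongr
      _ = δ / 4 * X := by field_simp
  refine ⟨max (5 * C * B) (C * (5 / δ) + 5), ?_, ?_⟩
  · refine le_trans ?_ (le_max_right _ _)
    have : 0 ≤ C * (5 / δ) := by positivity
    linarith
  filter_upwards [hX.eventually hC', hX.eventually hsmall, hy.eventually exp_le_prod_block,
    hy.eventually sum_inv_block, hlog.eventually (eventually_ge_atTop (1 : ℝ)),
    hlog.eventually (eventually_ge_atTop x₀), hX.eventually (eventually_ge_atTop x₀),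
    hX.eventually (one_le_G r), hlog.eventually (one_le_G r),
    eventually_gt_atTop (0 : ℝ), hX.eventually (eventually_ge_atTop (1 : ℝ))]
    with x h1 h2 h3 h4 h5 h6 h7 h8 h9 h10 h11
  obtain ⟨K, L, a, hD⟩ := h1
  set y := ⌈4 * Real.log x⌉₊ with hydef
  have hy4 : 4 * Real.log x ≤ y := Nat.le_ceil _
  have hy5 : (y : ℝ) ≤ 5 * Real.log x := by
    have := Nat.ceil_lt_add_one (show 0 ≤ 4 * Real.log x by linarith)
    linarith
  have hy1 : 1 ≤ y := by
    have : (1 : ℝ) ≤ y := by linarith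
    exact_mod_cast this
  have hy1r : (1 : ℝ) ≤ y := by exact_mod_cast hy1
  have hX0 : 0 < (y : ℝ) / δ := by positivity
  have hyX : (y : ℝ) ≤ (y : ℝ) / δ / 2 := by
    rw [div_div, le_div_iff₀ (by positivity)]
    nlinarith
  have hXle : (y : ℝ) / δ ≤ 5 / δ * Real.log x := by
    rw [div_mul_eq_mul_div]
    gcongr
  have hGX : G r ((y : ℝ) / δ) ≤ B * G r (Real.log x) := hB _ _ h6 h7 hXle
  obtain ⟨K', L', a', hD'⟩ := data_step y hD hX0 (by linarith) h3 h4 hy1 hyX (by
    have : δ / 4 * ((y : ℝ) / δ) = y / 4 := by field_simp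
    linarith)
  refine ⟨K', L', a', ⟨hD'.good, hD'.two_le, ?_, ?_, ?_, ?_⟩⟩
  · intro k hk
    refine (hD'.le_bound k hk).trans ?_
    rw [G]
    have e1 : (y : ℝ) * (C * G r ((y : ℝ) / δ)) ≤ (5 * Real.log x) * (C * (B * G r (Real.log x))) := by
      gcongr
    have e2 : (5 * Real.log x) * (C * (B * G r (Real.log x))) =
        (5 * C * B) * (Real.log x * G r (Real.log x)) := by ring
    have e3 : 0 ≤ Real.log x * G r (Real.log x) := by positivity
    calc (y : ℝ) * (C * G r ((y : ℝ) / δ)) ≤ (5 * C * B) * (Real.log x * G r (Real.log x)) := by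
          linarith
      _ ≤ max (5 * C * B) (C * (5 / δ) + 5) * (Real.log x * G r (Real.log x)) := by
          gcongr
          exact le_max_left _ _
  · intro k hk q hq hqk
    refine (hD'.prime_le k hk q hq hqk).trans ?_
    refine hy5.trans ?_
    have : (5 : ℝ) ≤ max (5 * C * B) (C * (5 / δ) + 5) := by
      refine le_trans ?_ (le_max_right _ _)
      have : 0 ≤ C * (5 / δ) := by positivity
      linarith
    gcongr
  · refine le_trans ?_ hD'.le_L
    have : x = Real.exp (Real.log x) := (Real.exp_log h10).symm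
    rw [this]
    apply Real.exp_le_exp.mpr
    linarith
  · refine hD'.a_le.trans ?_
    have hL0 : (0 : ℝ) ≤ L' := by positivity
    have : 2 * (δ / 2) + (y : ℝ) / ((y : ℝ) / δ) ≤ ε := by
      have : (y : ℝ) / ((y : ℝ) / δ) = δ := by field_simp
      linarith
    gcongr

theorem level (r : ℕ) : Level r := by
  induction r with
  | zero => exact level_zero
  | succ r ih => exact level_succ r ih

end Pool.Agent.H13.Delta
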