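import Mathlib

/-!
# Subset sums of reciprocals: the combinatorial step

`Good K L a` says that every fraction `r / L` with `a ≤ r < L` is a sum of reciprocals of
distinct elements of `K`. The step adds a set of primes to the modulus.
-/

namespace Pool.Agent.H13.Delta

open Finset

/-- Every fraction `r / L` with `a ≤ r < L` is a sum of reciprocals of distinct elements of `K`. -/
def Good (K : Finset ℕ) (L a : ℕ) : Prop :=
  ∀ r : ℕ, a ≤ r → r < L → ∃ S ⊆ K, ∑ k ∈ S, (1 : ℚ) / k = r / L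

/-- The multiset of new elements. -/
def ext (K Q : Finset ℕ) : Finset ℕ := K ∪ Q.biUnion (fun q => K.image (fun k => q * k))

theorem good_two (h : ℕ) : Good ((Finset.Icc 1 h).image (fun a => 2 ^ a)) (2 ^ h) 0 := by
  induction h with
  | zero =>
    intro r _ hr
    have : r = 0 := by simpa using hr
    subst this
    exact ⟨∅, empty_subset _, by simp⟩
  | succ h ih =>
    intro r _ hr
    obtain ⟨S, hS, hsum⟩ := ih (r / 2) (Nat.zero_le _) (by
      rw [Nat.div_lt_iff_lt_mul (by norm_num)]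
      rw [pow_succ] at hr
      exact hr)
    have hsub : (Finset.Icc 1 h).image (fun a => 2 ^ a) ⊆
        (Finset.Icc 1 (h + 1)).image (fun a => 2 ^ a) :=
      image_subset_image (Icc_subset_Icc le_rfl (by omega))
    rcases Nat.mod_two_eq_zero_or_one r with h0 | h1
    · refine ⟨S, hS.trans hsub, ?_⟩
      rw [hsum]
      have : (r : ℚ) = 2 * ((r / 2 : ℕ) : ℚ) := by
        have := Nat.div_add_mod r 2
        rw [h0, add_zero] at this
        exact_mod_cast this.symm
      rw [this]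
      push_cast
      rw [pow_succ]
      field_simp
    · refine ⟨insert (2 ^ (h + 1)) S, ?_, ?_⟩
      · refine insert_subset ?_ (hS.trans hsub)
        exact mem_image_of_mem _ (mem_Icc.mpr ⟨by omega, le_rfl⟩)
      · rw [sum_insert, hsum]
        · have : (r : ℚ) = 2 * ((r / 2 : ℕ) : ℚ) + 1 := by
            have := Nat.div_add_mod r 2
            rw [h1] at this
            exact_mod_cast this.symm
          rw [this]
          push_cast
          rw [pow_succ]
          field_simp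
          ring
        · intro hmem
          obtain ⟨a, ha, ha'⟩ := mem_image.mp (hS hmem)
          have := Nat.pow_right_injective (le_refl 2) ha'
          rw [mem_Icc] at ha
          omega

/-- Choice of a residue in an interval. -/
theorem exists_residue (q a M r : ℕ) (hq : 0 < q) (hcop : Nat.Coprime M q) :
    ∃ s, a ≤ s ∧ s < a + q ∧ (s * M ≡ r [MOD q]) := by
  have : NeZero q := ⟨hq.ne'⟩
  let u : (ZMod q)ˣ := ZMod.unitOfCoprime M hcop
  let w : ZMod q := ((u⁻¹ : (ZMod q)ˣ) : ZMod q)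
  have hw : w * (u : ZMod q) = 1 := Units.inv_mul u
  refine ⟨a + ((r : ZMod q) * w - (a : ZMod q)).val, Nat.le_add_right _ _, ?_, ?_⟩
  · have := ZMod.val_lt ((r : ZMod q) * w - (a : ZMod q))
    omega
  · rw [← ZMod.natCast_eq_natCast_iff]
    push_cast
    rw [ZMod.natCast_zmod_val]
    have hu : ((M : ℕ) : ZMod q) = (u : ZMod q) := (ZMod.coe_unitOfCoprime M hcop).symm
    rw [hu]
    have : ((a : ZMod q) + ((r : ZMod q) * w - (a : ZMod q))) * (u : ZMod q) =
        r * (w * (u : ZMod q)) := by ring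
    rw [this, hw, mul_one]

theorem good_step {K : Finset ℕ} {L a : ℕ} (hG : Good K L a) (hL : 0 < L)
    (Q : Finset ℕ) (hQ : ∀ q ∈ Q, q.Prime) (hqL : ∀ q ∈ Q, a + q ≤ L)
    (hcop : ∀ q ∈ Q, ∀ k ∈ K, ¬ q ∣ k) :
    Good (ext K Q) (L * ∏ q ∈ Q, q)
      (a * ∏ q ∈ Q, q + ∑ q ∈ Q, (a + q) * ∏ p ∈ Q.erase q, p) := by
  intro r har hrL
  set P := ∏ q ∈ Q, q with hP
  have hPpos : 0 < P := prod_pos fun q hq => (hQ q hq).pos
  have hM : ∀ q ∈ Q, q * ∏ p ∈ Q.erase q, p = P := fun q hq => mul_prod_erase Q id hq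
  have hcopM : ∀ q ∈ Q, Nat.Coprime (∏ p ∈ Q.erase q, p) q := by
    intro q hq
    refine Nat.Coprime.prod_left fun p hp => ?_
    rw [mem_erase] at hp
    exact (Nat.coprime_primes (hQ p hp.2) (hQ q hq)).mpr hp.1
  have hex : ∀ q : ℕ, ∃ s, q ∈ Q → (a ≤ s ∧ s < a + q ∧
      (s * (∏ p ∈ Q.erase q, p) ≡ r [MOD q])) := by
    intro q
    by_cases hq : q ∈ Q
    · obtain ⟨s, hs⟩ := exists_residue q a (∏ p ∈ Q.erase q, p) r (hQ q hq).pos (hcopM q hq)
      exact ⟨s, fun _ => hs⟩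
    · exact ⟨0, fun h => absurd h hq⟩
  choose s hs using hex
  have hle : ∑ q ∈ Q, s q * ∏ p ∈ Q.erase q, p ≤ ∑ q ∈ Q, (a + q) * ∏ p ∈ Q.erase q, p :=
    sum_le_sum fun q hq => Nat.mul_le_mul_right _ (hs q hq).2.1.le
  have hdvd : (P : ℤ) ∣ (r : ℤ) - ((∑ q ∈ Q, s q * ∏ p ∈ Q.erase q, p : ℕ) : ℤ) := by
    rw [hP]
    push_cast
    refine Finset.prod_dvd_of_coprime ?_ ?_
    · intro p hp q hq hpq
      exact Nat.isCoprime_iff_coprime.mpr ((Nat.coprime_primes (hQ p hp) (hQ q hq)).mpr hpq)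
    · intro q hq
      have h1 := ((hs q hq).2.2)
      have h2 : (q : ℤ) ∣ (r : ℤ) - ((s q * ∏ p ∈ Q.erase q, p : ℕ) : ℤ) :=
        (Nat.modEq_iff_dvd.mp h1)
      have h3 : (q : ℤ) ∣ ∑ p ∈ Q.erase q, ((s p : ℤ) * ∏ p' ∈ Q.erase p, (p' : ℤ)) := by
        refine dvd_sum fun p hp => ?_
        rw [mem_erase] at hp
        refine Dvd.dvd.mul_left ?_ _
        exact dvd_prod_of_mem (fun x : ℕ => (x : ℤ)) (mem_erase.mpr ⟨hp.1.symm, hq⟩)
      rw [← add_sum_erase Q _ hq]
      push_cast at h2 ⊢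
      rw [← sub_sub]
      exact dvd_sub h2 h3
  obtain ⟨t, ht⟩ := hdvd
  have hsum0 : (∑ q ∈ Q, s q * ∏ p ∈ Q.erase q, p) + a * P ≤ r := by omega
  have ht1 : (a : ℤ) ≤ t := by
    by_contra hlt
    have h1 : t + 1 ≤ (a : ℤ) := by omega
    have h2 : (P : ℤ) * t < (P : ℤ) * a := by
      have : (0 : ℤ) < P := by exact_mod_cast hPpos
      nlinarith
    have h3 : ((∑ q ∈ Q, s q * ∏ p ∈ Q.erase q, p : ℕ) : ℤ) + a * P ≤ r := by exact_mod_cast hsum0
    nlinarith
  have ht2 : t < L := by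
    by_contra hge
    have h2 : (P : ℤ) * L ≤ (P : ℤ) * t := by
      have : (0 : ℤ) < P := by exact_mod_cast hPpos
      nlinarith
    have h3 : (r : ℤ) < L * P := by exact_mod_cast hrL
    have h4 : (0 : ℤ) ≤ ((∑ q ∈ Q, s q * ∏ p ∈ Q.erase q, p : ℕ) : ℤ) := by positivity
    nlinarith
  obtain ⟨t', rfl⟩ : ∃ t' : ℕ, t = t' := ⟨t.toNat, by omega⟩
  obtain ⟨S0, hS0, hS0sum⟩ := hG t' (by exact_mod_cast ht1) (by exact_mod_cast ht2)
  have hex2 : ∀ q : ℕ, ∃ S, q ∈ Q → (S ⊆ K ∧ ∑ k ∈ S, (1 : ℚ) / k = s q / L) := by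
    intro q
    by_cases hq : q ∈ Q
    · obtain ⟨S, hS⟩ := hG (s q) (hs q hq).1 (lt_of_lt_of_le (hs q hq).2.1 (hqL q hq))
      exact ⟨S, fun _ => hS⟩
    · exact ⟨∅, fun h => absurd h hq⟩
  choose S hS using hex2
  refine ⟨S0 ∪ Q.biUnion (fun q => (S q).image (fun k => q * k)), ?_, ?_⟩
  · refine union_subset_union hS0 ?_
    intro x hx
    rw [mem_biUnion] at hx ⊢
    obtain ⟨q, hq, hx⟩ := hx
    exact ⟨q, hq, image_subset_image (hS q hq).1 hx⟩
  · rw [sum_union, sum_biUnion, hS0sum]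
    · have h1 : ∀ q ∈ Q, ∑ x ∈ (S q).image (fun k => q * k), (1 : ℚ) / x =
          (s q * ∏ p ∈ Q.erase q, (p : ℚ)) / (L * P) := by
        intro q hq
        have hq0 : (q : ℚ) ≠ 0 := by exact_mod_cast (hQ q hq).ne_zero
        rw [sum_image]
        · have h2 : ∀ k ∈ S q, (1 : ℚ) / ((q * k : ℕ) : ℚ) = (1 / q) * (1 / k) := by
            intro k _
            push_cast
            rw [one_div_mul_one_div]
          rw [sum_congr rfl h2, ← mul_sum, (hS q hq).2]
          have h3 : (P : ℚ) = q * ∏ p ∈ Q.erase q, (p : ℚ) := by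
            rw [← hM q hq]
            push_cast
            rfl
          have h4 : ∏ p ∈ Q.erase q, (p : ℚ) ≠ 0 := by
            rw [prod_ne_zero_iff]
            intro p hp
            exact_mod_cast (hQ p (mem_of_mem_erase hp)).ne_zero
          rw [h3]
          field_simp
        · intro x _ y _ hxy
          exact Nat.eq_of_mul_eq_mul_left (hQ q hq).pos hxy
      rw [sum_congr rfl h1, ← sum_div]
      have hL0 : (L : ℚ) ≠ 0 := by exact_mod_cast hL.ne'
      have hP0 : (P : ℚ) ≠ 0 := by exact_mod_cast hPpos.ne'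
      have h5 : (r : ℚ) = P * t' + ∑ q ∈ Q, (s q : ℚ) * ∏ p ∈ Q.erase q, (p : ℚ) := by
        have : (r : ℤ) = P * t' + ((∑ q ∈ Q, s q * ∏ p ∈ Q.erase q, p : ℕ) : ℤ) := by linarith
        have h6 : ((r : ℤ) : ℚ) = ((P * t' + ((∑ q ∈ Q, s q * ∏ p ∈ Q.erase q, p : ℕ) : ℤ) : ℤ) : ℚ) := by
          rw [this]
        push_cast at h6
        exact h6
      rw [h5]
      push_cast
      field_simp
    · intro p hp q hq hpq
      rw [Function.onFun, disjoint_left]
      intro x hx hy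
      obtain ⟨k, hk, rfl⟩ := mem_image.mp hx
      obtain ⟨k', hk', hkk⟩ := mem_image.mp hy
      have h1 : p ∣ q * k' := by
        have : q * k' = p * k := hkk
        rw [this]
        exact dvd_mul_right _ _
      rcases (hQ p hp).dvd_mul.mp h1 with h2 | h2
      · exact hpq ((Nat.prime_dvd_prime_iff_eq (hQ p hp) (hQ q hq)).mp h2)
      · exact hcop p hp k' ((hS q hq).1 hk') h2
    · rw [disjoint_left]
      intro x hx hy
      rw [mem_biUnion] at hy
      obtain ⟨q, hq, hy⟩ := hy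
      obtain ⟨k, hk, rfl⟩ := mem_image.mp hy
      exact hcop q hq _ (hS0 hx) (dvd_mul_right _ _)

end Pool.Agent.H13.Delta
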